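import Pool.Agent.P.MP_abcfaf_gt.R.Cech2

namespace Pool.Agent.Results.MP_abcfaf_gt.CechComplete

open Pool.Agent.P.MP_abcfaf_gt Topology

universe u v

/-- A Cech-complete king space with a continuous weak selection is compact if and only if the
quotient map onto its space of connected components is perfect. -/
theorem result (X : Type u) (K : Type v) [TopologicalSpace X] [TopologicalSpace K]
    [CompactSpace K] [T2Space K] (e : X → K) (he : IsEmbedding e) (hG : IsGδ (Set.range e))
    (hking : KingSpace X) (hsel : ∃ φ : Pair X → X, IsWeakSel φ ∧ ContSel φ) :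
    CompactSpace X ↔ IsProperMap (ConnectedComponents.mk : X → ConnectedComponents X) := by
  haveI : T2Space X := he.t2Space
  haveI : RegularSpace X := he.regularSpace
  refine ⟨fun _ => ConnectedComponents.continuous_coe.isProperMap, fun hp => ?_⟩
  obtain ⟨φ, h1, h2⟩ := hsel
  obtain ⟨T⟩ := exists_tour φ h1 h2
  obtain ⟨Z⟩ := R.exists_cz T he hG hp
  exact R.compact_of_rim (kp_of_king hking) T (R.rim_of_cz (kp_of_king hking) T Z)

end Pool.Agent.Results.MP_abcfaf_gt.CechComplete
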