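import Pool.Agent.P.MP_abcfaf_gt.R.Rim

namespace Pool.Agent.Results.MP_abcfaf_gt.RimPseudocompact

open Pool.Agent.P.MP_abcfaf_gt Topology

universe u

/-- A Tychonoff king space with a continuous weak selection is compact as soon as every point has
a base of open neighbourhoods whose boundaries lie in pseudocompact subspaces. -/
theorem result (X : Type u) [TopologicalSpace X] [T35Space X]
    (hrim : ∀ x : X, ∀ N ∈ 𝓝 x, ∃ U : Set X, IsOpen U ∧ x ∈ U ∧ U ⊆ N ∧
      ∃ Y : Set X, frontier U ⊆ Y ∧ Pseudocompact Y)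
    (hking : KingSpace X) (hsel : ∃ φ : Pair X → X, IsWeakSel φ ∧ ContSel φ) :
    CompactSpace X := by
  obtain ⟨φ, h1, h2⟩ := hsel
  obtain ⟨T⟩ := exists_tour φ h1 h2
  refine R.compact_of_rim (kp_of_king hking) T fun x N hN => ?_
  obtain ⟨U, hU, hx, hUN, Y, hY, hp⟩ := hrim x N hN
  exact ⟨U, hU, hx, hUN, Y, hY, R.rfc_of_pseudo hp⟩

end Pool.Agent.Results.MP_abcfaf_gt.RimPseudocompact
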