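import Pool.Agent.P.MP_abcfaf_gt.K.Ex

namespace Pool.Agent.Results.MP_abcfaf_gt.TotallySeparatedExample

open Pool.Agent.P.MP_abcfaf_gt

/-- A non-compact totally separated king space with a continuous weak selection, which is a
countable intersection of countable unions of compact subsets of a Polish space. -/
theorem result : ∃ F : ℕ → ℕ → Set ((ℕ → ℕ) × ℝ), (∀ i j, IsCompact (F i j)) ∧
    TotallySeparatedSpace ↥(⋂ i, ⋃ j, F i j) ∧ ¬ CompactSpace ↥(⋂ i, ⋃ j, F i j) ∧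
    KingSpace ↥(⋂ i, ⋃ j, F i j) ∧
    ∃ φ : Pair ↥(⋂ i, ⋃ j, F i j) → ↥(⋂ i, ⋃ j, F i j), IsWeakSel φ ∧ ContSel φ := by
  refine ⟨K.Ex.F, K.Ex.isCompact_F, ?_⟩
  rw [K.Ex.G_eq]
  exact ⟨K.Ex.tsep, K.Ex.not_compact, K.king_of_kp K.Ex.kp, K.sel_of_tour K.Ex.lex⟩

end Pool.Agent.Results.MP_abcfaf_gt.TotallySeparatedExample
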